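import Pool.Agent.Helper54.DI.StmtsB

namespace Pool.Agent.Helper63.DI

open Finset Pool.Agent.Helper54.ETR Pool.Agent.Helper54.DI

theorem ren_eval (f : ℕ → ℕ) (x : ℕ → ℝ) (t : Term) :
    (t.ren f).eval x = t.eval (fun i => x (f i)) := by
  induction t with
  | zero => rfl
  | one => rfl
  | var i => rfl
  | add s t ihs iht => simp only [Term.ren, Term.eval, ihs, iht]
  | sub s t ihs iht => simp only [Term.ren, Term.eval, ihs, iht]
  | mul s t ihs iht => simp only [Term.ren, Term.eval, ihs, iht]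

theorem ren_holds (f : ℕ → ℕ) (x : ℕ → ℝ) (p : Form) :
    (p.ren f).Holds x ↔ p.Holds (fun i => x (f i)) := by
  induction p with
  | lt s t => simp only [Form.ren, Form.Holds, ren_eval]
  | le s t => simp only [Form.ren, Form.Holds, ren_eval]
  | eq s t => simp only [Form.ren, Form.Holds, ren_eval]
  | ge s t => simp only [Form.ren, Form.Holds, ren_eval]
  | gt s t => simp only [Form.ren, Form.Holds, ren_eval]
  | and p q ihp ihq => simp only [Form.ren, Form.Holds, ihp, ihq]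
  | or p q ihp ihq => simp only [Form.ren, Form.Holds, ihp, ihq]
  | not p ih => simp only [Form.ren, Form.Holds, ih]

theorem below_mono {n m : ℕ} (h : n ≤ m) (t : Term) (ht : t.Below n) : t.Below m := by
  induction t with
  | zero => trivial
  | one => trivial
  | var i => exact lt_of_lt_of_le ht h
  | add s t ihs iht => exact ⟨ihs ht.1, iht ht.2⟩
  | sub s t ihs iht => exact ⟨ihs ht.1, iht ht.2⟩
  | mul s t ihs iht => exact ⟨ihs ht.1, iht ht.2⟩

theorem ren_below (f : ℕ → ℕ) (m : ℕ) (hf : ∀ i, f i < m) (t : Term) : (t.ren f).Below m := by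
  induction t with
  | zero => trivial
  | one => trivial
  | var i => exact hf i
  | add s t ihs iht => exact ⟨ihs, iht⟩
  | sub s t ihs iht => exact ⟨ihs, iht⟩
  | mul s t ihs iht => exact ⟨ihs, iht⟩

theorem ren_fbelow (f : ℕ → ℕ) (m : ℕ) (hf : ∀ i, f i < m) (p : Form) :
    FBelow m (p.ren f) := by
  induction p with
  | lt s t | le s t | eq s t | ge s t | gt s t =>
    intro a ha
    simp only [Form.ren, Form.atoms, List.mem_singleton] at ha
    subst ha
    exact ⟨ren_below f m hf s, ren_below f m hf t⟩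
  | and p q ihp ihq | or p q ihp ihq =>
    intro a ha
    simp only [Form.ren, Form.atoms, List.mem_append] at ha
    rcases ha with ha | ha
    · exact ihp a ha
    · exact ihq a ha
  | not p ih =>
    intro a ha
    exact ih a ha

/-- integers are values of terms -/
theorem nat_term (n : ℕ) : ∃ T : Term, T.Below 0 ∧ ∀ x : ℕ → ℝ, T.eval x = n := by
  induction n with
  | zero => exact ⟨Term.zero, trivial, fun x => by simp [Term.eval]⟩
  | succ n ih =>
    obtain ⟨T, h1, h2⟩ := ih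
    exact ⟨Term.add T Term.one, ⟨h1, trivial⟩, fun x => by simp [Term.eval, h2]⟩

theorem int_term (n : ℤ) : ∃ T : Term, T.Below 0 ∧ ∀ x : ℕ → ℝ, T.eval x = n := by
  obtain ⟨A, hA, hA'⟩ := nat_term n.toNat
  obtain ⟨B, hB, hB'⟩ := nat_term (-n).toNat
  refine ⟨Term.sub A B, ⟨hA, hB⟩, fun x => ?_⟩
  simp only [Term.eval, hA', hB']
  have h : ((n.toNat : ℤ) - ((-n).toNat : ℤ)) = n := by omega
  have h2 : (((n.toNat : ℤ) - ((-n).toNat : ℤ) : ℤ) : ℝ) = (n : ℝ) := by rw [h]
  push_cast at h2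
  exact h2

theorem pow_term (k : ℕ) : ∃ T : Term, T.Below 1 ∧ ∀ x : ℕ → ℝ, T.eval x = x 0 ^ k := by
  induction k with
  | zero => exact ⟨Term.one, trivial, fun x => by simp [Term.eval]⟩
  | succ k ih =>
    obtain ⟨T, h1, h2⟩ := ih
    refine ⟨Term.mul T (Term.var 0), ⟨h1, Nat.zero_lt_one⟩, fun x => ?_⟩
    simp only [Term.eval, h2, pow_succ]

theorem poly_term (p : Polynomial ℤ) : ∃ T : Term, T.Below 1 ∧
    ∀ x : ℕ → ℝ, T.eval x = Polynomial.aeval (x 0) p := by
  induction p using Polynomial.induction_on' with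
  | add p q hp hq =>
    obtain ⟨A, hA, hA'⟩ := hp
    obtain ⟨B, hB, hB'⟩ := hq
    exact ⟨Term.add A B, ⟨hA, hB⟩, fun x => by simp only [Term.eval, hA', hB', map_add]⟩
  | monomial n a =>
    obtain ⟨A, hA, hA'⟩ := int_term a
    obtain ⟨B, hB, hB'⟩ := pow_term n
    refine ⟨Term.mul A B, ⟨below_mono (Nat.zero_le 1) _ hA, hB⟩, fun x => ?_⟩
    simp only [Term.eval, hA', hB', Polynomial.aeval_monomial]
    rfl

/-- a formula for `u < x_0` -/
theorem rat_lt (u : ℚ) : ∃ φ : Form, FBelow 1 φ ∧ ∀ x : ℕ → ℝ, φ.Holds x ↔ (u : ℝ) < x 0 := by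
  obtain ⟨A, hA, hA'⟩ := int_term u.num
  obtain ⟨B, hB, hB'⟩ := nat_term u.den
  refine ⟨Form.lt A (Term.mul B (Term.var 0)), ?_, fun x => ?_⟩
  · intro a ha
    simp only [Form.atoms, List.mem_singleton] at ha
    subst ha
    exact ⟨below_mono (Nat.zero_le 1) _ hA, below_mono (Nat.zero_le 1) _ hB, Nat.zero_lt_one⟩
  · simp only [Form.Holds, Term.eval, hA', hB']
    have hd : (0 : ℝ) < (u.den : ℝ) := by exact_mod_cast u.den_pos
    have hu : (u : ℝ) = (u.num : ℝ) / (u.den : ℝ) := by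
      exact_mod_cast (Rat.num_div_den u).symm
    rw [hu, div_lt_iff₀ hd, mul_comm]

theorem lt_rat (u : ℚ) : ∃ φ : Form, FBelow 1 φ ∧ ∀ x : ℕ → ℝ, φ.Holds x ↔ x 0 < (u : ℝ) := by
  obtain ⟨A, hA, hA'⟩ := int_term u.num
  obtain ⟨B, hB, hB'⟩ := nat_term u.den
  refine ⟨Form.lt (Term.mul B (Term.var 0)) A, ?_, fun x => ?_⟩
  · intro a ha
    simp only [Form.atoms, List.mem_singleton] at ha
    subst ha
    exact ⟨⟨below_mono (Nat.zero_le 1) _ hB, Nat.zero_lt_one⟩, below_mono (Nat.zero_le 1) _ hA⟩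
  · simp only [Form.Holds, Term.eval, hA', hB']
    have hd : (0 : ℝ) < (u.den : ℝ) := by exact_mod_cast u.den_pos
    have hu : (u : ℝ) = (u.num : ℝ) / (u.den : ℝ) := by
      exact_mod_cast (Rat.num_div_den u).symm
    rw [hu, lt_div_iff₀ hd, mul_comm]

/-- one algebraic number -/
theorem alg_one (α : ℝ) (hα : IsAlgebraic ℚ α) : ∃ φ : Form, FBelow 1 φ ∧
    ∀ x : ℕ → ℝ, φ.Holds x ↔ x 0 = α := by
  have hα' : IsAlgebraic ℤ α := (IsFractionRing.isAlgebraic_iff ℤ ℚ ℝ).2 hα
  obtain ⟨p, hp0, hp⟩ := hα'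
  have hq0 : p.map (algebraMap ℤ ℝ) ≠ 0 := by
    rw [Ne, Polynomial.map_eq_zero_iff]
    · exact hp0
    · exact Int.cast_injective
  have hroot : ∀ y : ℝ, Polynomial.aeval y p = 0 → y ∈ (p.map (algebraMap ℤ ℝ)).roots.toFinset := by
    intro y hy
    rw [Multiset.mem_toFinset, Polynomial.mem_roots hq0, Polynomial.IsRoot.def,
      Polynomial.eval_map_algebraMap]
    exact hy
  have hfin : (((p.map (algebraMap ℤ ℝ)).roots.toFinset.erase α : Finset ℝ) : Set ℝ).Finite :=
    Finset.finite_toSet _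
  have hcl := hfin.isClosed
  have hmem : α ∈ (((p.map (algebraMap ℤ ℝ)).roots.toFinset.erase α : Finset ℝ) : Set ℝ)ᶜ := by
    simp
  obtain ⟨ε, hε, hball⟩ := Metric.isOpen_iff.1 hcl.isOpen_compl α hmem
  obtain ⟨u, hu1, hu2⟩ := exists_rat_btwn (show α - ε < α by linarith)
  obtain ⟨v, hv1, hv2⟩ := exists_rat_btwn (show α < α + ε by linarith)
  obtain ⟨T, hT, hT'⟩ := poly_term p
  obtain ⟨φu, hφu, hφu'⟩ := rat_lt u
  obtain ⟨φv, hφv, hφv'⟩ := lt_rat v
  refine ⟨Form.and (Form.eq T Term.zero) (Form.and φu φv), ?_, fun x => ?_⟩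
  · intro a ha
    simp only [Form.atoms, List.mem_append, List.mem_singleton] at ha
    rcases ha with ha | ha | ha
    · subst ha
      exact ⟨hT, trivial⟩
    · exact hφu a ha
    · exact hφv a ha
  · simp only [Form.Holds, Term.eval, hT', hφu', hφv']
    constructor
    · rintro ⟨h1, h2, h3⟩
      by_contra hne
      have hx := hroot _ h1
      have hx2 : x 0 ∈ Metric.ball α ε := by
        rw [Metric.mem_ball, Real.dist_eq, abs_lt]
        constructor <;> linarith
      have hx3 := hball hx2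
      apply hx3
      exact Finset.mem_coe.2 (Finset.mem_erase.2 ⟨hne, hx⟩)
    · intro h
      rw [h]
      exact ⟨hp, hu2, hv1⟩

/-- finitely many algebraic numbers -/
theorem alg_list (α : ℕ → ℝ) (s : ℕ) (hα : ∀ i < s, IsAlgebraic ℚ (α i)) : ∃ δ : Form,
    FBelow s δ ∧ ∀ x : ℕ → ℝ, δ.Holds x ↔ ∀ i < s, x i = α i := by
  induction s with
  | zero =>
    refine ⟨Form.le Term.zero Term.zero, ?_, fun x => ?_⟩
    · intro a ha
      simp only [Form.atoms, List.mem_singleton] at ha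
      subst ha
      exact ⟨trivial, trivial⟩
    · simp [Form.Holds, Term.eval]
  | succ s ih =>
    obtain ⟨δ, h1, h2⟩ := ih (fun i hi => hα i (by omega))
    obtain ⟨φ, h3, h4⟩ := alg_one (α s) (hα s (by omega))
    refine ⟨Form.and δ (φ.ren (fun _ => s)), ?_, fun x => ?_⟩
    · intro a ha
      simp only [Form.atoms, List.mem_append] at ha
      rcases ha with ha | ha
      · exact ⟨below_mono (by omega) _ (h1 a ha).1, below_mono (by omega) _ (h1 a ha).2⟩
      · exact ren_fbelow _ (s + 1) (fun _ => by omega) φ a ha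
    · simp only [Form.Holds, ren_holds, h2, h4]
      constructor
      · rintro ⟨h5, h6⟩ i hi
        rcases Nat.lt_succ_iff_lt_or_eq.1 hi with h | h
        · exact h5 i h
        · rw [h]; exact h6
      · intro h
        exact ⟨fun i hi => h i (by omega), h s (by omega)⟩

/-! big conjunctions and disjunctions -/

def bigAnd (l : List Form) : Form := l.foldr Form.and (Form.le Term.zero Term.zero)

def bigOr (l : List Form) : Form := l.foldr Form.or (Form.lt Term.zero Term.zero)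

theorem bigAnd_holds (l : List Form) (x : ℕ → ℝ) : (bigAnd l).Holds x ↔ ∀ p ∈ l, p.Holds x := by
  induction l with
  | nil => simp [bigAnd, Form.Holds]
  | cons p l ih =>
    have h : (bigAnd (p :: l)).Holds x ↔ p.Holds x ∧ (bigAnd l).Holds x := Iff.rfl
    rw [h, ih]
    simp

theorem bigOr_holds (l : List Form) (x : ℕ → ℝ) : (bigOr l).Holds x ↔ ∃ p ∈ l, p.Holds x := by
  induction l with
  | nil => simp [bigOr, Form.Holds]
  | cons p l ih =>
    have h : (bigOr (p :: l)).Holds x ↔ p.Holds x ∨ (bigOr l).Holds x := Iff.rfl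
    rw [h, ih]
    simp

theorem bigAnd_deg (X : Finset ℕ) (l : List Form)
    (h : ∀ p ∈ l, ∀ a ∈ p.atoms, atomDeg X a ≤ 1) : ∀ a ∈ (bigAnd l).atoms, atomDeg X a ≤ 1 := by
  induction l with
  | nil =>
    intro a ha
    have h2 : a = (Term.zero, Term.zero) := by
      simpa [bigAnd, Form.atoms] using ha
    rw [h2]
    simp [atomDeg, Term.deg]
  | cons p l ih =>
    intro a ha
    have h2 : a ∈ p.atoms ∨ a ∈ (bigAnd l).atoms := List.mem_append.1 ha
    rcases h2 with h2 | h2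
    · exact h p (by simp) a h2
    · exact ih (fun q hq => h q (by simp [hq])) a h2

theorem bigOr_deg (X : Finset ℕ) (l : List Form)
    (h : ∀ p ∈ l, ∀ a ∈ p.atoms, atomDeg X a ≤ 1) : ∀ a ∈ (bigOr l).atoms, atomDeg X a ≤ 1 := by
  induction l with
  | nil =>
    intro a ha
    have h2 : a = (Term.zero, Term.zero) := by
      simpa [bigOr, Form.atoms] using ha
    rw [h2]
    simp [atomDeg, Term.deg]
  | cons p l ih =>
    intro a ha
    have h2 : a ∈ p.atoms ∨ a ∈ (bigOr l).atoms := List.mem_append.1 ha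
    rcases h2 with h2 | h2
    · exact h p (by simp) a h2
    · exact ih (fun q hq => h q (by simp [hq])) a h2

/-- sign condition -/
def sg (T : Term) : SignType → Form
  | SignType.zero => Form.eq T Term.zero
  | SignType.neg => Form.lt T Term.zero
  | SignType.pos => Form.lt Term.zero T

theorem sg_holds (T : Term) (σ : SignType) (x : ℕ → ℝ) :
    (sg T σ).Holds x ↔ SignType.sign (T.eval x) = σ := by
  cases σ with
  | zero =>
    have h : (sg T SignType.zero).Holds x ↔ T.eval x = 0 := Iff.rfl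
    rw [h]
    exact (sign_eq_zero_iff).symm
  | neg =>
    have h : (sg T SignType.neg).Holds x ↔ T.eval x < 0 := Iff.rfl
    rw [h]
    exact (sign_eq_neg_one_iff).symm
  | pos =>
    have h : (sg T SignType.pos).Holds x ↔ 0 < T.eval x := Iff.rfl
    rw [h]
    exact (sign_eq_one_iff).symm

theorem sg_deg (X : Finset ℕ) (T : Term) (hT : T.deg X ≤ 1) (σ : SignType) :
    ∀ a ∈ (sg T σ).atoms, atomDeg X a ≤ 1 := by
  intro a ha
  cases σ with
  | zero =>
    have h2 : a = (T, Term.zero) := by simpa [sg, Form.atoms] using ha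
    rw [h2]
    simpa [atomDeg, Term.deg] using hT
  | neg =>
    have h2 : a = (T, Term.zero) := by simpa [sg, Form.atoms] using ha
    rw [h2]
    simpa [atomDeg, Term.deg] using hT
  | pos =>
    have h2 : a = (Term.zero, T) := by simpa [sg, Form.atoms] using ha
    rw [h2]
    simpa [atomDeg, Term.deg] using hT

/-- linear term with coefficients among the first `s` variables -/
theorem lin_term (s : ℕ) (α : ℕ → ℝ) (c : ℕ → ℝ) (n : ℕ)
    (hc : ∀ j ≤ n, ∃ k < s, α k = c j) : ∃ T : Term, T.deg (range s) ≤ 1 ∧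
    ∀ x : ℕ → ℝ, (∀ i < s, x i = α i) →
      T.eval x = c 0 + ∑ j ∈ range n, c (j + 1) * x (s + j) := by
  induction n with
  | zero =>
    obtain ⟨k, hk, hk2⟩ := hc 0 le_rfl
    refine ⟨Term.var k, ?_, fun x hx => ?_⟩
    · simp [Term.deg, hk]
    · simp [Term.eval, hx k hk, hk2]
  | succ n ih =>
    obtain ⟨T, h1, h2⟩ := ih (fun j hj => hc j (by omega))
    obtain ⟨k, hk, hk2⟩ := hc (n + 1) le_rfl
    refine ⟨Term.add T (Term.mul (Term.var k) (Term.var (s + n))), ?_, fun x hx => ?_⟩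
    · simp only [Term.deg]
      rw [if_pos (Finset.mem_range.2 hk), if_neg (by simp)]
      simpa using h1
    · simp only [Term.eval]
      rw [h2 x hx, hx k hk, hk2, Finset.sum_range_succ, add_assoc]

/-- translation of one relation -/
theorem trans_one (s : ℕ) (α : ℕ → ℝ) (ρ : Form) (m n : ℕ) (a : Fin m → ℕ → ℝ)
    (hc : ∀ i, ∀ j ≤ n, ∃ k < s, α k = a i j)
    (hρ : ∀ x y : ℕ → ℝ,
      (∀ i, SignType.sign (a i 0 + ∑ j ∈ Finset.range n, a i (j + 1) * x j) =
        SignType.sign (a i 0 + ∑ j ∈ Finset.range n, a i (j + 1) * y j)) →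
      (ρ.Holds x ↔ ρ.Holds y)) :
    ∃ τ : Form, (∀ b ∈ τ.atoms, atomDeg (Finset.range s) b ≤ 1) ∧
      ∀ x : ℕ → ℝ, (∀ i < s, x i = α i) → (τ.Holds x ↔ ρ.Holds (fun i => x (s + i))) := by
  classical
  have hT : ∀ i : Fin m, ∃ T : Term, T.deg (range s) ≤ 1 ∧
      ∀ x : ℕ → ℝ, (∀ i < s, x i = α i) →
        T.eval x = a i 0 + ∑ j ∈ range n, a i (j + 1) * x (s + j) :=
    fun i => lin_term s α (a i) n (hc i)
  choose T hT1 hT2 using hT
  let S : Finset (Fin m → SignType) := Finset.univ.filter (fun σ => ∃ x : ℕ → ℝ, ρ.Holds x ∧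
    ∀ i, SignType.sign (a i 0 + ∑ j ∈ Finset.range n, a i (j + 1) * x j) = σ i)
  refine ⟨bigOr (S.toList.map (fun σ => bigAnd ((List.finRange m).map (fun i => sg (T i) (σ i))))),
    ?_, fun x hx => ?_⟩
  · apply bigOr_deg
    intro p hp
    obtain ⟨σ, -, rfl⟩ := List.mem_map.1 hp
    apply bigAnd_deg
    intro q hq
    obtain ⟨i, -, rfl⟩ := List.mem_map.1 hq
    exact sg_deg _ _ (hT1 i) _
  · rw [bigOr_holds]
    constructor
    · rintro ⟨p, hp, hpx⟩
      obtain ⟨σ, hσ, rfl⟩ := List.mem_map.1 hp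
      rw [Finset.mem_toList] at hσ
      obtain ⟨-, x', hx', hx''⟩ := Finset.mem_filter.1 hσ
      rw [bigAnd_holds] at hpx
      refine (hρ x' (fun i => x (s + i)) (fun i => ?_)).1 hx'
      have h := hpx (sg (T i) (σ i)) (List.mem_map.2 ⟨i, List.mem_finRange i, rfl⟩)
      rw [sg_holds, hT2 i x hx] at h
      rw [hx'' i, ← h]
    · intro h
      refine ⟨_, List.mem_map.2 ⟨fun i => SignType.sign (a i 0 + ∑ j ∈ Finset.range n,
        a i (j + 1) * x (s + j)), ?_, rfl⟩, ?_⟩
      · rw [Finset.mem_toList]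
        exact Finset.mem_filter.2 ⟨Finset.mem_univ _, _, h, fun i => rfl⟩
      · rw [bigAnd_holds]
        intro q hq
        obtain ⟨i, -, rfl⟩ := List.mem_map.1 hq
        rw [sg_holds, hT2 i x hx]

/-- all coefficients -/
theorem coeffs (Γ : List Form) (hΓ : ∀ ρ ∈ Γ, SemiLin ρ) : ∃ cs : List ℝ,
    (∀ c ∈ cs, IsAlgebraic ℚ c) ∧ ∀ ρ ∈ Γ, ∃ (m n : ℕ) (a : Fin m → ℕ → ℝ),
      (∀ i, ∀ j ≤ n, a i j ∈ cs) ∧ ∀ x y : ℕ → ℝ,
      (∀ i, SignType.sign (a i 0 + ∑ j ∈ Finset.range n, a i (j + 1) * x j) =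
        SignType.sign (a i 0 + ∑ j ∈ Finset.range n, a i (j + 1) * y j)) →
      (ρ.Holds x ↔ ρ.Holds y) := by
  induction Γ with
  | nil => exact ⟨[], by simp, by simp⟩
  | cons ρ Γ ih =>
    obtain ⟨cs, h1, h2⟩ := ih (fun q hq => hΓ q (by simp [hq]))
    obtain ⟨m, n, a, ha, hρ⟩ := hΓ ρ (by simp)
    refine ⟨(List.finRange m).flatMap (fun i => (List.range (n + 1)).map (a i)) ++ cs, ?_, ?_⟩
    · intro c hc
      rcases List.mem_append.1 hc with hc | hc
      · obtain ⟨i, -, hc⟩ := List.mem_flatMap.1 hc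
        obtain ⟨j, -, rfl⟩ := List.mem_map.1 hc
        exact ha i j
      · exact h1 c hc
    · intro q hq
      rcases List.mem_cons.1 hq with hq | hq
      · subst hq
        refine ⟨m, n, a, fun i j hj => ?_, hρ⟩
        exact List.mem_append_left _ (List.mem_flatMap.2 ⟨i, List.mem_finRange i,
          List.mem_map.2 ⟨j, List.mem_range.2 (by omega), rfl⟩⟩)
      · obtain ⟨m', n', a', h3, h4⟩ := h2 q hq
        exact ⟨m', n', a', fun i j hj => List.mem_append_right _ (h3 i j hj), h4⟩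

theorem collect (P : Form → Form → Prop) (Γ : List Form) (h : ∀ ρ ∈ Γ, ∃ τ, P ρ τ) :
    ∃ D : List (Form × Form), D.map Prod.fst = Γ ∧ ∀ z ∈ D, P z.1 z.2 := by
  induction Γ with
  | nil => exact ⟨[], rfl, by simp⟩
  | cons ρ Γ ih =>
    obtain ⟨D, h1, h2⟩ := ih (fun q hq => h q (by simp [hq]))
    obtain ⟨τ, hτ⟩ := h ρ (by simp)
    refine ⟨(ρ, τ) :: D, by simp [h1], ?_⟩
    intro z hz
    rcases List.mem_cons.1 hz with hz | hz
    · subst hz
      exact hτ
    · exact h2 z hz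

theorem tau : ST_TAU := by
  intro Γ hΓ
  obtain ⟨cs, hcs, hdat⟩ := coeffs Γ hΓ
  let α : ℕ → ℝ := fun i => cs.getD i 0
  have hα : ∀ i < cs.length, IsAlgebraic ℚ (α i) := by
    intro i hi
    apply hcs
    show cs.getD i 0 ∈ cs
    rw [List.getD_eq_getElem _ _ hi]
    exact List.getElem_mem hi
  have hidx : ∀ c ∈ cs, ∃ k < cs.length, α k = c := by
    intro c hc
    obtain ⟨k, hk, hk2⟩ := List.getElem_of_mem hc
    refine ⟨k, hk, ?_⟩
    show cs.getD k 0 = c
    rw [List.getD_eq_getElem _ _ hk]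
    exact hk2
  obtain ⟨δ, hδ1, hδ2⟩ := alg_list α cs.length hα
  obtain ⟨D, hD1, hD2⟩ := collect (fun ρ τ => (∀ b ∈ τ.atoms,
      atomDeg (Finset.range cs.length) b ≤ 1) ∧
      ∀ x : ℕ → ℝ, (∀ i < cs.length, x i = α i) →
        (τ.Holds x ↔ ρ.Holds (fun i => x (cs.length + i)))) Γ (by
    intro ρ hρ
    obtain ⟨m, n, a, h1, h2⟩ := hdat ρ hρ
    exact trans_one cs.length α ρ m n a (fun i j hj => hidx _ (h1 i j hj)) h2)
  exact ⟨cs.length, α, δ, D, hδ1, hδ2, hD1, hD2⟩

end Pool.Agent.Helper63.DI
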